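import Pool.Agent.P8H27.EM.Fin

/-!
# Finite generation of étale motivic cohomology in weight `d` for regular arithmetic schemes built from
abelian varieties over finite fields

Let `X` be a regular proper arithmetic scheme of dimension `d`. The question is whether the groups
`H^i(X_et, ℤ(d))` are finitely generated for `i ≤ 2 d`. We use the homological notation: `E.H X n j` is the
étale motivic homology `H_n(X_et, ℤ(j))`, so that for regular `X` of dimension `d`

  `H^i(X_et, ℤ(r)) = E.H X (2 d - i) (d - r)`,

and the groups of the question are `E.H X n 0`, `n ≥ 0`. The property `HasFG E X` says that the groups
`E.H X n j` are finitely generated for all `j ≤ 0` and all `n ≥ 2 j`; for regular `X` that is: the groups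
`H^i(X_et, ℤ(r))` are finitely generated for **all** weights `r ≥ d` and all `i ≤ 2 r`. So `HasFG E X` contains
the assertion of the question for `X`.

**Theorem.** `HasFG` holds for all arithmetic schemes of the class `ArithGenerated`, which is the smallest
class that

* contains the arithmetic schemes for which `HasFG` is already known, for instance the spectra of rings of
  integers of number fields (Quillen, Borel, Soulé, Voevodsky, Rost);
* contains the smooth projective connected varieties `X` over finite fields of arbitrary characteristics and
  of arbitrary dimension that belong to the class generated by the abelian varieties `Y` of
  `IsKnownAbelian` (`IsGeneratedOverFinite`). These are the abelian varieties `Y`, of any dimension, such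
  that the traces of a power of Frobenius lie, up to supersingular factors, in a totally real number field
  `L`, Galois over `ℚ`, with at most two primes above the characteristic, and that are ordinary up to
  supersingular factors or, more generally, whose slopes satisfy the condition of `HasTracesIn`.
  The class that they generate contains for instance the products of curves whose Jacobians are such
  `Y`, the symmetric powers, Kummer varieties, all varieties whose motive is a direct summand of the
  motives of such products and of their twists, and their blow-ups in smooth centres of the same kind;
* contains with `Y l` every `X` whose motive is a direct summand of the sum of the motives of the `Y l`,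
  twisted `r l ≤ 0` times (projective bundles, blow-ups);
* contains `X` if it contains a closed subscheme `Z` and the complement `U = X ∖ Z`.

So for example: let `P` be a projective bundle, of relative dimension `m`, over the spectrum of the ring of
integers of a number field, and let `A` be a variety over a finite residue field, of the class above, that is
embedded in the closed fibre of `P`. The blow-up `X` of `P` along `A` is regular, proper and flat
over `ℤ`, of dimension `d = m + 1`; its motive is the sum of the motives of `P` and of twists of the motive of
`A`. The theorem implies that `H^i(X_et, ℤ(d))` is finitely generated for all `i ≤ 2 d`.

For a smooth projective variety over a finite field the question contains the special case of the conjecture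
of Parshin that the groups `CH_0(X, i) ⊗ ℚ` vanish for `i > 0`, which is not known for general abelian varieties.

Properties that are used (`IsOverFinite`): the sequence `0 → ℤ(j) → ℚ(j) → (ℚ / ℤ)(j) → 0`, the finiteness
of `H^i(X_et, (ℚ / ℤ)(r))`, `r ≥ d`, `i < 2 r` (Colliot-Thélène, Sansuc, Soulé, Gabber, Milne, Gros, Suwa), the
weights of the Frobenius (Deligne) and the degree of zero-cycles; and those of cycles on abelian
varieties in `IsChow`, `IsMotivic` (Poincaré duality, formal properties of correspondences, Kimura's
nilpotence theorem, the operation of Frobenius on higher Chow groups, `K`-theory of finite fields). The
proof: the generalized conjecture of Tate and Beilinson holds for the schemes over finite fields of the class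
(`tb_known`); the essential point, for the abelian varieties with traces in `L`, is that their Tate classes
are generated by those of degree two (`Pool.Agent.P8H27.RF.tate_alg`). Therefore the rational motivic homology
`H_n(X, ℚ(j))`, `j ≤ 0`, vanishes for `(n, j) ≠ (0, 0)` and is `ℚ` for `n = j = 0`, and the integral groups
are finite, or finitely generated of rank one.
-/

namespace Pool.Agent.Results.MP_b197b4_nt.GeneratedByAbelian

open Pool.Agent.W495.FM Pool.Agent.P8H27.EM

/-- **Finite generation of the étale motivic cohomology, in the weights `r ≥ d` and the degrees
`i ≤ 2 r`, of the arithmetic schemes generated by abelian varieties over finite fields and by arithmetic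
schemes with this property.** -/
theorem result (Ω : Type) [Field Ω] [IsAlgClosed Ω] [CharZero Ω] (V W : Type) (T : Homology Ω V)
    (hT : IsHomology T) (E : EtaleHomology W) (X : W)
    (hX : ArithGenerated E (fun Y => HasFG E Y ∨ IsGeneratedOverFinite T E Y) X) : HasFG E X :=
  hasFG_known hT hX

end Pool.Agent.Results.MP_b197b4_nt.GeneratedByAbelian
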