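import Pool.Agent.P8H27.WE.Thms

/-!
# Finite generation of the étale motivic cohomology in weight `d` of the products of ordinary abelian
# varieties whose traces of Frobenius lie in a totally real field with at most two primes above `p`, with
# arbitrary varieties

Let `q = p ^ m` and let `L` be a totally real number field, Galois over `ℚ`, with **at most two prime
ideals above `p`** (`numPrimes`), for example `ℚ` or a real quadratic field, or a field of any degree in
which the decomposition groups of `p` have index at most two. Let `S` be any set of integers `b` of `L` that
are prime to `p` (`PrimeTo`) and such that all conjugates have absolute value at most `2 √q`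
(`WeilBound`), for instance all of them.

We consider **all** abelian varieties `A` over the field with `q` elements such that every eigenvalue
of Frobenius on `H^1(A)` is supersingular or a root of `T ^ 2 - φ(b) T + q`, with `b ∈ S` and `φ` an
embedding of `L` (`HasTraces`), that is, the abelian varieties which are ordinary up to supersingular
factors and for which the eigenvalues of Frobenius plus Verschiebung belong to `L`. There are
infinitely many isogeny classes of simple factors, and `A` may have any number of them; their CM
fields are arbitrary totally imaginary quadratic extensions of the subfields of `L`. (If the product of
two eigenvalues is `q` up to a root of unity then it is assumed to be `q`; this is so over some finite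
extension of the ground field.)

Let `Z` be an **arbitrary** smooth projective connected variety of dimension `d` over this field, such
that the eigenvalues of Frobenius on its cohomology are separated (`HasSeparatedRoots`, `IsSeparated`):
each of them has a weight `w`, it is not an odd power of `√q` up to a root of unity (this is only
necessary if `A` has supersingular factors), and one of the following conditions holds (`Separated`),
where `s`, `s'` run through its slopes, the valuations of its `p`-adic conjugates:

* all slopes are `w / 2` (up to roots of unity this says `ρ ^ 2 = q ^ w`);
* two slopes have a difference which is not an integer, or two times a slope is not an integer;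
* some `|2 s - w|` is greater than the mean value of the numbers `(2 s' - w) ^ 2`;
* for some `n > 0` no discriminant `φ(b) ^ 2 - 4 q`, `b ∈ S`, is a square in the field generated by `ρ ^ n`
  and the images of `L`.

For example `Z` may be any variety with cohomology of Tate type, a supersingular variety with
cohomology in even degrees, a K3 surface of height `h > 2` or an ordinary K3 surface with geometric
Picard number less than `18` (with finite-dimensional motive).

**Theorem** (`EtaleTracesTimes`, `EtaleIff`).

* For all weights `r ≥ dim (A × Z)` and all `i ≤ 2 r`, the group `H^i((A × Z)_et, ℤ(r))` is finitely
  generated **if and only if** the groups `H^(i - 2 k)(Z_et, ℤ(r - k))`, `0 ≤ k ≤ dim A`, are.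
* The assertion of the question for the arithmetic scheme `A × Z` (the groups
  `H^i((A × Z)_et, ℤ(dim (A × Z)))`, `i ≤ 2 dim (A × Z)`, are finitely generated) is true **if and only
  if** the groups `H^i(Z_et, ℤ(r))` are finitely generated for `d ≤ r ≤ dim A + d` and `i ≤ 2 r`.

So the higher Chow groups `CH_0(A × Z, n) ⊗ ℚ`, `n > 0`, whose vanishing is the main open point of the
question for schemes over finite fields, vanish if and only if the groups `CH_j(Z, n) ⊗ ℚ` of dimension
`- dim A ≤ j ≤ 0` do.

What is used (`IsEtale`), for `Y = Z` and `Y = A × Z`, which are connected, and `r ≥ dim Y`, `i ≤ 2 r`: the exact sequence
`H^(i - 1)(Y_et, (ℚ / ℤ)(r)) → H^i(Y_et, ℤ(r)) → H^i(Y, ℚ(r))`, whose first group is finite (Colliot-Thélène,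
Sansuc, Soulé, Gabber, Milne, Gros, Suwa); the degree of zero-cycles; and Deligne's theorem: if
`H^i(Y_et, ℤ(r))` is finitely generated then, as a subgroup of the finite group `H^i(Y_et, ℤ_ℓ(r))` after
completion, it is finite, apart from the degree for `(i, r) = (2 dim Y, dim Y)`. The framework for the
rational motivic cohomology of `A × Z` is the one of the starting files (`Pool.Agent.Y156.L`: the theories
relative to `Z`, the operation of Frobenius, finite dimensionality of the motive of `A` after Kimura, the
theorem of Tate on divisors).

The proof. Suppose that a product `α_1 ... α_n ρ` of eigenvalues of `A` and of an eigenvalue `ρ` of `Z` is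
a power of `q`. If `ρ` is separated then `α_1 ... α_n` is also, up to a root of unity, a power of `√q`,
and since `L` has at most two primes above `p` two of the `α` have product `q` up to a root of unity,
unless `n = 1` and `α_1` is supersingular, which is excluded as `ρ` is not an odd power of `√q`. So the
motivic cohomology of `A × Z` is the sum of the products of finitely many products `D t` of divisors on
`A` with that of `Z`; those `D t` which are not zero-cycles pair with the weights `r > d` of `Z`.
-/

namespace Pool.Agent.Results.MP_b197b4_nt.TracesTimesVarieties

open NumberField Polynomial Pool.Agent.P8H27.RF Pool.Agent.P8H27.WE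

/-- **Finite generation of étale motivic cohomology, in the weights `r ≥ dim (A × Z)`, of the products
`A × Z`**, where the abelian variety `A` has traces of Frobenius in `L` and `Z` has separated
eigenvalues, is equivalent to finite generation for `Z`. -/
theorem result {p m : ℕ} [Fact p.Prime] (hm : 0 < m) {L : Type} [Field L] [NumberField L]
    [IsTotallyReal L] [IsGalois ℚ L] (hL : numPrimes p L ≤ 2) (S : Set (𝓞 L))
    (hS : WeilBound (p ^ m) S) (hP : PrimeTo p S) {I : Type} (f : I → ℤ[X]) :
    EtaleTracesTimes p m S f :=
  etaleTracesTimes hm hS hP hL

end Pool.Agent.Results.MP_b197b4_nt.TracesTimesVarieties
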