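import Pool.Agent.P8H27.WE.Thms

/-!
# Finite generation of the étale motivic cohomology in weight `d` of products of varieties with
# uncorrelated slopes

Let `q = p ^ m`. Let `X` be a smooth projective connected variety over the field with `q` elements, whose
motive is finite-dimensional in the sense of Kimura (`IsVariety`) and which satisfies the Tate
conjecture (`HasTate`: Frobenius is semisimple, all Tate classes are algebraic). For example `X` may be any
abelian variety of dimension at most three, any product of elliptic curves, any abelian variety
without exotic Tate classes or for which the exotic Tate classes are known to be algebraic, or a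
product of curves with such a Jacobian variety. Let `S` be a set of Weil numbers such that the eigenvalues of
Frobenius on the cohomology of `X` are products of numbers in `S` (`HasEigenvaluesIn`). If an eigenvalue is a
power of `q` up to a root of unity then it is assumed to be a power of `q`; this is so over some finite
extension of the ground field.

Let `Z` be an **arbitrary** smooth projective connected variety of dimension `d` over this field, such
that the eigenvalues of Frobenius on its cohomology are uncorrelated with `S` (`HasUncorrelatedRoots`,
`IsUncorrelated`): they are products of Weil numbers `β` with

  `∑ (2 v(τ α) - u) (2 v(τ β) - w) = 0`    for all `α ∈ S`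

(`Uncorrelated`), where `u` and `w` are the weights of `α` and `β`, the sum is over all embeddings `τ` of the
field `ℚ(α, β)` in an algebraic closure of `ℚ_p`, and `v` is the valuation with `v(q) = 1`; and they are not
odd powers of `√q` up to roots of unity, if there are such eigenvalues for `X`. This is satisfied for
instance if the fields `ℚ(α)` and `ℚ(β)` are linearly disjoint (and `X` or `Z` has no odd supersingular
part).

**Theorem** (`EtaleTimes`, `EtaleIff`).

* For all weights `r ≥ dim (X × Z)` and all `i ≤ 2 r`, the group `H^i((X × Z)_et, ℤ(r))` is finitely
  generated **if and only if** the groups `H^(i - 2 k)(Z_et, ℤ(r - k))`, `0 ≤ k ≤ dim X`, are.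
* The assertion of the question for the arithmetic scheme `X × Z` (the groups
  `H^i((X × Z)_et, ℤ(dim (X × Z)))`, `i ≤ 2 dim (X × Z)`, are finitely generated) is true **if and only
  if** the groups `H^i(Z_et, ℤ(r))` are finitely generated for `d ≤ r ≤ dim X + d` and `i ≤ 2 r`.

So the higher Chow groups `CH_0(X × Z, n) ⊗ ℚ`, `n > 0`, whose vanishing is the main open point of the
question for schemes over finite fields, vanish if and only if the groups `CH_j(Z, n) ⊗ ℚ` of dimension
`- dim X ≤ j ≤ 0` do. No assumption is made on the Chow groups of `Z`.

What is used (`IsEtale`), for `Y = Z` and `Y = X × Z`, which are connected, and `r ≥ dim Y`, `i ≤ 2 r`: the exact sequence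
`H^(i - 1)(Y_et, (ℚ / ℤ)(r)) → H^i(Y_et, ℤ(r)) → H^i(Y, ℚ(r))`, whose first group is finite (Colliot-Thélène,
Sansuc, Soulé, Gabber, Milne, Gros, Suwa); the degree of zero-cycles; and Deligne's theorem: if
`H^i(Y_et, ℤ(r))` is finitely generated then, as a subgroup of the finite group `H^i(Y_et, ℤ_ℓ(r))` after
completion, it is finite, apart from the degree for `(i, r) = (2 dim Y, dim Y)`. On the rational motivic
cohomology relative to `Z`: the formal properties of correspondences, products and push-forwards
(`IsRel`); the Frobenius endomorphism of `X × Z` acts in weight `r` as `q ^ r` (`IsPure`); and the Frobenius
of `Z` satisfies in each bidegree a nonzero polynomial with the roots described above, which follows if the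
motive of `Z` is finite-dimensional.

The proof. Let `α` be an eigenvalue for `X` and `ρ` one for `Z` with `α ρ = q ^ c`. The functions
`g ↦ 2 v(g α) - u` and `g ↦ 2 v(g ρ) - w` on the Galois group of a large number field have the sum zero and, by
the hypothesis, are orthogonal, so both are zero; hence `α` is a power of `q` and its eigenvectors are
algebraic by the Tate conjecture for `X`. So there are cycles `D t` on `X` such that the motivic
cohomology of `X × Z` is the sum of the products of the `D t` with that of `Z`. Those `D t` which are not
zero-cycles pair with the weights `r > d` of `Z`.
-/

namespace Pool.Agent.Results.MP_b197b4_nt.UncorrelatedProducts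

open Pool.Agent.P8H27.WE

/-- **Finite generation of étale motivic cohomology, in the weights `r ≥ dim (X × Z)`, of the
products `X × Z`** is equivalent to finite generation for `Z`, if `X` satisfies the Tate conjecture and
the slopes of `X` and `Z` are uncorrelated. -/
theorem result {p m : ℕ} [Fact p.Prime] (hm : 0 < m) : EtaleTimes p m :=
  etaleTimes hm

end Pool.Agent.Results.MP_b197b4_nt.UncorrelatedProducts
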